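import Mathlib

/-! Job JR-AMI (helper339 for helper704): finitely generated domains over uncountable fields are
semiprimitive (Amitsur). -/

set_option autoImplicit false

namespace Pool.Agent.Y339.JR

open Polynomial

lemma rank_le (k : Type) [Field k] (R : Type) [Ring R] [Algebra k R] [Algebra.FiniteType k R] :
    Module.rank k R ≤ Cardinal.aleph0 := by
  obtain ⟨S, hS⟩ := (Algebra.FiniteType.out : (⊤ : Subalgebra k R).FG)
  have h1 : Submodule.span k (Submonoid.closure (S : Set R) : Set R) = ⊤ := by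
    rw [← Algebra.adjoin_eq_span, hS, Algebra.top_toSubmodule]
  have h2 : Countable (Submonoid.closure (S : Set R)) := by
    rw [Submonoid.closure_eq_mrange]
    have h3 : Countable (FreeMonoid {a : R // a ∈ (S : Set R)}) := by
      have h4 : Countable (List {a : R // a ∈ (S : Set R)}) := inferInstance
      exact h4
    exact (Set.countable_range (FreeMonoid.lift
      (Subtype.val : {a : R // a ∈ (S : Set R)} → R))).to_subtype
  rw [← rank_top, ← h1]
  refine (rank_span_le _).trans ?_
  exact Cardinal.mk_le_aleph0_iff.2 h2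

lemma exists_inv {k : Type} [Field k] {R : Type} [Ring R] [Algebra k R] {x : R}
    (hx : x ∈ Ideal.jacobson (⊥ : Ideal R)) (l : k) (hl : l ≠ 0) :
    ∃ v : R, v * (algebraMap k R l - x) = 1 := by
  obtain ⟨z, hz⟩ := Ideal.mem_jacobson_iff.1 hx (-algebraMap k R l⁻¹)
  rw [Ideal.mem_bot] at hz
  refine ⟨z * algebraMap k R l⁻¹, ?_⟩
  rw [mul_sub, mul_assoc, ← map_mul, inv_mul_cancel₀ hl, map_one, mul_one]
  rw [mul_neg, neg_mul] at hz
  rw [← sub_eq_zero, ← hz]
  abel

lemma alg_of_dep {k : Type} [Field k] {R : Type} [Ring R] [Algebra k R] {x : R}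
    (v : {l : k // l ≠ 0} → R) (hv : ∀ l, v l * (algebraMap k R l.1 - x) = 1)
    (s : Finset {l : k // l ≠ 0}) (c : {l : k // l ≠ 0} → k) (h0 : ∑ l ∈ s, c l • v l = 0)
    (hc : ∃ l ∈ s, c l ≠ 0) : IsAlgebraic k x := by
  classical
  obtain ⟨l0, hl0, hcl0⟩ := hc
  refine ⟨∑ l ∈ s, C (c l) * ∏ m ∈ s.erase l, (C m.1 - X), ?_, ?_⟩
  · intro hp
    have h1 := congrArg (eval l0.1) hp
    rw [eval_finsetSum, eval_zero, Finset.sum_eq_single_of_mem l0 hl0] at h1
    · rw [eval_mul, eval_C, eval_prod, mul_eq_zero] at h1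
      rcases h1 with h1 | h1
      · exact hcl0 h1
      · obtain ⟨m, hm, hm0⟩ := Finset.prod_eq_zero_iff.1 h1
        rw [eval_sub, eval_C, eval_X, sub_eq_zero] at hm0
        exact (Finset.mem_erase.1 hm).1 (Subtype.ext hm0)
    · intro l hl hne
      rw [eval_mul, eval_prod, Finset.prod_eq_zero (i := l0) (Finset.mem_erase.2 ⟨hne.symm, hl0⟩),
        mul_zero]
      rw [eval_sub, eval_C, eval_X, sub_self]
  · have h1 : ∀ l ∈ s, aeval x (C (c l) * ∏ m ∈ s.erase l, (C m.1 - X)) =
        (c l • v l) * aeval x (∏ m ∈ s, (C m.1 - X)) := by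
      intro l hl
      rw [← Finset.mul_prod_erase s _ hl, map_mul, map_mul, aeval_C, map_sub, aeval_C, aeval_X,
        ← mul_assoc, smul_mul_assoc, hv l, Algebra.smul_def, mul_one]
    rw [map_sum, Finset.sum_congr rfl h1, ← Finset.sum_mul, h0, zero_mul]

theorem t_AMI (k : Type) [Field k] (hk : Uncountable k) (R : Type) [Ring R] [Algebra k R]
    [Algebra.FiniteType k R] [IsDomain R] : Ideal.jacobson (⊥ : Ideal R) = ⊥ := by
  rw [eq_bot_iff]
  intro x hx
  rw [Ideal.mem_bot]
  by_contra hx0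
  choose v hv using fun l : {l : k // l ≠ 0} => exists_inv hx l.1 l.2
  have hnot : ¬ LinearIndependent k v := by
    intro hli
    have h1 := hli.cardinal_le_rank.trans (rank_le k R)
    rw [Cardinal.mk_le_aleph0_iff] at h1
    have h2 : ({0}ᶜ : Set k).Countable := by
      have : Countable ({0}ᶜ : Set k) := h1
      exact this.to_set
    have h3 : (Set.univ : Set k).Countable := by
      rw [← Set.compl_union_self {0}]
      exact h2.union (Set.countable_singleton 0)
    exact not_countable (α := k) (Set.countable_univ_iff.1 h3)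
  rw [not_linearIndependent_iff] at hnot
  obtain ⟨s, c, h0, hc⟩ := hnot
  have halg : IsAlgebraic k x := alg_of_dep v hv s c h0 hc
  obtain ⟨q, hq0, hq⟩ := halg.exists_nonzero_coeff_and_aeval_eq_zero
    (mem_nonZeroDivisors_of_ne_zero hx0)
  have h1 := congrArg (aeval x) (divX_mul_X_add q)
  rw [hq, map_add, map_mul, aeval_X, aeval_C] at h1
  set w := aeval x q.divX with hw
  have h2 : (algebraMap k R (q.coeff 0)⁻¹ * w) * x = -1 := by
    have h3 : w * x = - algebraMap k R (q.coeff 0) := eq_neg_of_add_eq_zero_left h1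
    rw [mul_assoc, h3, mul_neg, ← map_mul, inv_mul_cancel₀ hq0, map_one]
  obtain ⟨z, hz⟩ := Ideal.mem_jacobson_iff.1 hx (algebraMap k R (q.coeff 0)⁻¹ * w)
  rw [Ideal.mem_bot, mul_assoc, h2, mul_neg, mul_one, neg_add_cancel, zero_sub, neg_eq_zero] at hz
  exact one_ne_zero hz

end Pool.Agent.Y339.JR
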